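import Pool.Agent.Q296.BF.Sum

/-! # Polynomials with irreducible reduction are irreducible over the completion -/

set_option autoImplicit false

namespace Pool.Agent.Q296.BF

open Polynomial NumberField IsDedekindDomain Pool.Agent.Q52.SecY Pool.Agent.TH377.Sup
open Pool.Agent.W189.NF (Ov redMap_eq_zero)

/-- a polynomial over an integrally closed local domain with unit leading coefficient and irreducible
reduction is irreducible over the field of fractions -/
lemma irr_frac (A : Type) [CommRing A] [IsDomain A] [IsIntegrallyClosed A] [IsLocalRing A]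
    (k : Type) [Field k] [Algebra A k] [IsFractionRing A k] (f : A[X])
    (hlcf : IsUnit f.leadingCoeff) (hirr2 : Irreducible (f.map (IsLocalRing.residue A))) :
    Irreducible (f.map (algebraMap A k)) := by
  obtain ⟨u, hu⟩ := hlcf
  have hmonic : (C (↑(u⁻¹) : A) * f).Monic := by
    have h1 : (C (↑(u⁻¹) : A) * f).coeff f.natDegree = 1 := by
      rw [coeff_C_mul, coeff_natDegree, ← hu, Units.inv_mul]
    have h2 : (C (↑(u⁻¹) : A) * f).natDegree ≤ f.natDegree := natDegree_C_mul_le _ _
    exact monic_of_natDegree_le_of_coeff_eq_one _ h2 h1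
  have hCu : IsUnit (C (↑(u⁻¹) : A)) := (Units.isUnit u⁻¹).map C
  have hirr3 : Irreducible (C (↑(u⁻¹) : A) * f) := by
    refine hmonic.irreducible_of_irreducible_map (IsLocalRing.residue A) _ ?_
    rw [Polynomial.map_mul]
    exact (irreducible_isUnit_mul (hCu.map (Polynomial.mapRingHom (IsLocalRing.residue A)))).2 hirr2
  have hirr4 := (hmonic.irreducible_iff_irreducible_map_fraction_map (K := k)).1 hirr3
  rw [Polynomial.map_mul] at hirr4
  exact (irreducible_isUnit_mul (hCu.map (Polynomial.mapRingHom (algebraMap A k)))).1 hirr4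

variable {K : Type} [Field K] [NumberField K] (v : HeightOneSpectrum (𝓞 K))

theorem irr_compl {r : ℕ} (d : Fin r → ℕ) (y : Idx d → 𝓞 K)
    (hy : (fun o => Ideal.Quotient.mk (v.asIdeal ^ 2) (y o)) ∈ GoodM v d) (i : Fin r) :
    Irreducible (pol fun l : Fin (d i + 1) => algebraMap K (v.adicCompletion K)
      (algebraMap (𝓞 K) K (y (some ⟨i, l⟩)))) := by
  obtain ⟨h1, h2, h3⟩ := good_iff' v d y hy
  have hcoe : ∀ b : 𝓞 K, ((algebraMap (𝓞 K) (Ov v) b : Ov v) : v.adicCompletion K) =
      algebraMap K (v.adicCompletion K) (algebraMap (𝓞 K) K b) := by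
    intro b
    rw [HeightOneSpectrum.algebraMap_adicCompletion]
    rfl
  have hunit : ∀ b : 𝓞 K, b ∉ v.asIdeal → IsUnit (algebraMap (𝓞 K) (Ov v) b) := by
    intro b hb
    by_contra h
    have h4 : algebraMap (𝓞 K) (Ov v) b ∈ IsLocalRing.maximalIdeal (Ov v) :=
      (IsLocalRing.mem_maximalIdeal _).2 h
    rw [← IsLocalRing.residue_eq_zero_iff] at h4
    exact hb ((redMap_eq_zero v b).1 h4)
  have h5 := irr_frac (Ov v) (v.adicCompletion K)
    (pol fun l : Fin (d i + 1) => algebraMap (𝓞 K) (Ov v) (y (some ⟨i, l⟩))) (by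
      rw [pol_leadingCoeff]
      · exact hunit _ (h3 i).1
      · exact (hunit _ (h3 i).1).ne_zero) (by
      have h4 := irreducible_residue v _ (h3 i).2
      rw [pol_map] at h4
      exact h4)
  rw [pol_map] at h5
  have e2 : (fun l : Fin (d i + 1) => algebraMap (Ov v) (v.adicCompletion K)
        (algebraMap (𝓞 K) (Ov v) (y (some ⟨i, l⟩)))) =
        fun l => algebraMap K (v.adicCompletion K) (algebraMap (𝓞 K) K (y (some ⟨i, l⟩))) := by
    funext l
    exact hcoe _
  rw [← e2]
  exact h5

end Pool.Agent.Q296.BF
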