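import Pool.Agent.Q296.BF.PlaceN
import Pool.Agent.Q52.SecY.Loc

/-! # The valuations of the values of binary forms over the finite extensions of the completion at
a good prime -/

set_option autoImplicit false

namespace Pool.Agent.Q296.BF

open Polynomial NumberField IsDedekindDomain Pool.Agent.Q52.SecY Pool.Agent.TH377.Sup
open Pool.Agent.W189.NF (Ov redMap_eq_zero)

variable {K : Type} [Field K] [NumberField K] (v : HeightOneSpectrum (𝓞 K))

theorem compl_ord {r : ℕ} (d : Fin r → ℕ) (y : Idx d → 𝓞 K)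
    (hy : (fun o => Ideal.Quotient.mk (v.asIdeal ^ 2) (y o)) ∈ GoodM v d) (g : ℕ) (E : Type)
    [Field E] [Algebra (v.adicCompletion K) E] [FiniteDimensional (v.adicCompletion K) E]
    (hl : ¬ g ∣ Module.finrank (v.adicCompletion K) E) :
    ∃ (B : ValuationSubring E) (_ : IsDiscreteValuationRing B) (π : B) (e : ℕ), Irreducible π ∧
      ¬ g ∣ e ∧ OrdIs π (algebraMap (v.adicCompletion K) E (algebraMap K (v.adicCompletion K)
        (algebraMap (𝓞 K) K (y none)))) (e : ℤ) ∧
      ∀ i, g ∣ d i → ∀ x t : E, (x ≠ 0 ∨ t ≠ 0) →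
        ∃ j : ℤ, OrdIs π (hval (fun l => algebraMap (v.adicCompletion K) E
          (algebraMap K (v.adicCompletion K) (algebraMap (𝓞 K) K (y (some ⟨i, l⟩))))) x t)
            (g * j) := by
  obtain ⟨h1, h2, h3⟩ := good_iff' v d y hy
  have hcz : CharZero (v.adicCompletion K) :=
    charZero_of_injective_algebraMap (algebraMap K (v.adicCompletion K)).injective
  set ϖ : Ov v := algebraMap (𝓞 K) (Ov v) (y none) with hϖdef
  have hϖ : Irreducible ϖ := by
    apply irreducible_of_valued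
    rw [hϖdef, valued_Ov]
    exact mem_and v _ h1 h2
  have hcoe : ∀ b : 𝓞 K, ((algebraMap (𝓞 K) (Ov v) b : Ov v) : v.adicCompletion K) =
      algebraMap K (v.adicCompletion K) (algebraMap (𝓞 K) K b) := by
    intro b
    rw [HeightOneSpectrum.algebraMap_adicCompletion]
    rfl
  have hunit : ∀ b : 𝓞 K, b ∉ v.asIdeal → IsUnit (algebraMap (𝓞 K) (Ov v) b) := by
    intro b hb
    by_contra h
    have h4 : algebraMap (𝓞 K) (Ov v) b ∈ IsLocalRing.maximalIdeal (Ov v) :=
      (IsLocalRing.mem_maximalIdeal _).2 h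
    rw [← IsLocalRing.residue_eq_zero_iff] at h4
    exact hb ((redMap_eq_zero v b).1 h4)
  obtain ⟨B, hB, π, e, hπ, he, ha, hF⟩ := local_ord (v.adicCompletion K)
    (v.adicCompletionIntegers K) ϖ hϖ (IsLocalRing.ResidueField (Ov v))
    (IsLocalRing.residue (Ov v)) (IsLocalRing.residue_surjective) g d
    (fun i l => algebraMap (𝓞 K) (Ov v) (y (some ⟨i, l⟩))) (fun i => hunit _ (h3 i).1) (by
      intro i
      have h4 := irreducible_residue v _ (h3 i).2
      rw [pol_map] at h4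
      exact h4) E hl
  refine ⟨B, hB, π, e, hπ, he, ?_, ?_⟩
  · have e1 : ((ϖ : Ov v) : v.adicCompletion K) =
        algebraMap K (v.adicCompletion K) (algebraMap (𝓞 K) K (y none)) := hcoe _
    rw [e1] at ha
    exact ha
  · intro i hgi x t hxt
    obtain ⟨j, hj⟩ := hF i hgi x t hxt
    refine ⟨j, ?_⟩
    have e2 : (fun l : Fin (d i + 1) => algebraMap (v.adicCompletion K) E
        (((algebraMap (𝓞 K) (Ov v) (y (some ⟨i, l⟩)) : Ov v)) : v.adicCompletion K)) =
        fun l => algebraMap (v.adicCompletion K) E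
          (algebraMap K (v.adicCompletion K) (algebraMap (𝓞 K) K (y (some ⟨i, l⟩)))) := by
      funext l
      rw [hcoe]
    rw [← e2]
    exact hj

/-- **a subgroup of the multiplicative group** which contains the values of the binary forms and the
`g`-th powers, but not the coefficient `a` -/
theorem compl_subgroup {r : ℕ} (d : Fin r → ℕ) (y : Idx d → 𝓞 K)
    (hy : (fun o => Ideal.Quotient.mk (v.asIdeal ^ 2) (y o)) ∈ GoodM v d) (g : ℕ) (E : Type)
    [Field E] [Algebra (v.adicCompletion K) E] [FiniteDimensional (v.adicCompletion K) E]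
    (hl : ¬ g ∣ Module.finrank (v.adicCompletion K) E) :
    ∃ H : Subgroup Eˣ, (∀ u : Eˣ, u ^ g ∈ H) ∧
      (∀ u : Eˣ, (u : E) = algebraMap (v.adicCompletion K) E (algebraMap K (v.adicCompletion K)
        (algebraMap (𝓞 K) K (y none))) → u ∉ H) ∧
      ∀ i, g ∣ d i → ∀ x t : E, (x ≠ 0 ∨ t ≠ 0) →
        ∃ u : Eˣ, u ∈ H ∧ (u : E) = hval (fun l => algebraMap (v.adicCompletion K) E
          (algebraMap K (v.adicCompletion K) (algebraMap (𝓞 K) K (y (some ⟨i, l⟩))))) x t := by
  obtain ⟨B, hB, π, e, hπ, he, ha, hF⟩ := compl_ord v d y hy g E hl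
  refine ⟨{ carrier := {u | ∃ j : ℤ, OrdIs π (u : E) (g * j)}
            mul_mem' := ?_, one_mem' := ?_, inv_mem' := ?_ }, ?_, ?_, ?_⟩
  · rintro u w ⟨j, hj⟩ ⟨l, hl⟩
    refine ⟨j + l, ?_⟩
    rw [Units.val_mul, mul_add]
    exact hj.mul hπ hl
  · refine ⟨0, ?_⟩
    rw [mul_zero, Units.val_one]
    exact OrdIs.one π
  · rintro u ⟨j, hj⟩
    refine ⟨-j, ?_⟩
    obtain ⟨l, hl⟩ := OrdIs.exists (A := B) hπ (u⁻¹).ne_zero
    have h1 := hj.mul hπ hl
    rw [Units.mul_inv] at h1
    have h2 := h1.unique hπ (OrdIs.one π)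
    have h3 : (g : ℤ) * -j = l := by linarith
    rw [h3]
    exact hl
  · intro u
    obtain ⟨l, hl⟩ := OrdIs.exists (A := B) hπ u.ne_zero
    refine ⟨l, ?_⟩
    rw [Units.val_pow_eq_pow_val]
    exact hl.pow hπ g
  · rintro u hu ⟨j, hj⟩
    rw [hu] at hj
    have h1 := ha.unique hπ hj
    apply he
    have h2 : (g : ℤ) ∣ (e : ℤ) := ⟨j, h1⟩
    exact_mod_cast h2
  · intro i hgi x t hxt
    obtain ⟨j, hj⟩ := hF i hgi x t hxt
    have h0 : hval (fun l => algebraMap (v.adicCompletion K) E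
        (algebraMap K (v.adicCompletion K) (algebraMap (𝓞 K) K (y (some ⟨i, l⟩))))) x t ≠ 0 := by
      intro h0
      rw [h0] at hj
      obtain ⟨u, hu⟩ := hj
      exact mul_ne_zero (u.isUnit.map (algebraMap B E)).ne_zero
        (zpow_ne_zero _ (uniz_ne π hπ)) hu.symm
    refine ⟨Units.mk0 _ h0, ⟨j, ?_⟩, rfl⟩
    exact hj

end Pool.Agent.Q296.BF
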