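import Pool.Agent.Q52.SecZ.Hom

/-! # Places of an extension `L / k` whose ramification index and degree are not divisible by `n`,
if `n` does not divide `[L : k]` (`n` arbitrary), and the valuations of the values of binary forms -/

set_option autoImplicit false

namespace Pool.Agent.Q296.BF

open Polynomial Pool.Agent.Q52.SecV Pool.Agent.Q52.SecY Pool.Agent.TH377.Sup
open Pool.Agent.Q52.SecZ (hom_eval hom_eval_zero)

set_option linter.deprecated false in
theorem exists_prime_n (A : Type) [CommRing A] [IsDomain A] [IsDedekindDomain A]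
    (p : Ideal A) [p.IsMaximal] (hp0 : p ≠ ⊥) (S : Type) [CommRing S] [IsDomain S]
    [IsDedekindDomain S] [Algebra A S] [Module.Finite A S] [Module.IsTorsionFree A S]
    (k L : Type) [Field k] [Field L] [Algebra A k] [IsFractionRing A k] [Algebra S L]
    [IsFractionRing S L] [Algebra k L] [Algebra A L] [IsScalarTower A S L] [IsScalarTower A k L]
    (n : ℕ) (hl : ¬ n ∣ Module.finrank k L) :
    ∃ P : Ideal S, P.IsPrime ∧ P.LiesOver p ∧ ¬ n ∣ Ideal.ramificationIdx' p P ∧
      ¬ n ∣ Ideal.inertiaDeg' p P := by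
  classical
  have h1 := Ideal.sum_ramification_inertia S k L (p := p) hp0
  by_contra hcon
  push Not at hcon
  apply hl
  rw [← h1]
  apply Finset.dvd_sum
  intro P hP
  obtain ⟨hP1, hP2⟩ := (IsDedekindDomain.mem_primesOverFinset_iff hp0 _).mp hP
  by_cases ho : n ∣ Ideal.ramificationIdx' p P
  · exact ho.mul_right _
  · exact (hcon P hP1 hP2 ho).mul_left _

set_option linter.deprecated false in
theorem exists_place_n (k : Type) [Field k] [CharZero k] (A : ValuationSubring k)
    [IsDiscreteValuationRing A] (ϖ : A) (hϖ : Irreducible ϖ) (κ : Type) [Field κ] (ρ : A →+* κ)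
    (hρ : Function.Surjective ρ) (L : Type) [Field L]
    [Algebra k L] [FiniteDimensional k L] (n : ℕ) (hl : ¬ n ∣ Module.finrank k L) :
    ∃ P : Place k A ϖ κ ρ L, ¬ n ∣ P.e ∧
      ¬ n ∣ (@Module.finrank κ P.κ' _ (P.fld.toRing.toAddCommGroup.toAddCommMonoid)
        (@Algebra.toModule κ P.κ' _ _ P.alg)) := by
  classical
  set p := IsLocalRing.maximalIdeal A with hp
  have hp0 : p ≠ ⊥ := IsDiscreteValuationRing.not_a_field A
  have hϖp : p = Ideal.span {ϖ} := hϖ.maximalIdeal_eq
  have hS1 : IsDedekindDomain (integralClosure A L) := integralClosure.isDedekindDomain A k L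
  have hS2 : IsFractionRing (integralClosure A L) L :=
    integralClosure.isFractionRing_of_finite_extension k L
  have hS3 : Module.Finite A (integralClosure A L) := IsIntegralClosure.finite A k L _
  have hinj : Function.Injective (algebraMap A (integralClosure A L)) := by
    intro x y hxy
    have h1 := congrArg (fun z : integralClosure A L => (z : L)) hxy
    exact Subtype.ext ((algebraMap k L).injective h1)
  have hff := (faithfulSMul_iff_algebraMap_injective A (integralClosure A L)).2 hinj
  obtain ⟨P, hP1, hP2, he, hf⟩ := exists_prime_n A p hp0 (integralClosure A L) k L n hl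
  have hP0 : P ≠ ⊥ := by
    rintro rfl
    have h1 := hP2.over
    apply hp0
    rw [h1, Ideal.under_bot]
  have hPm : P.IsMaximal := Ideal.IsPrime.isMaximal inferInstance hP0
  obtain ⟨B, hB, i, ρ', hρ', hi, hρi, hui, hPi⟩ := exists_local (integralClosure A L) L P hP0
  letI : Field (integralClosure A L ⧸ P) := Ideal.Quotient.field P
  letI : Field (A ⧸ p) := Ideal.Quotient.field p
  have hker : RingHom.ker ρ = p := by
    have hmax : (RingHom.ker ρ).IsMaximal := RingHom.ker_isMaximal_of_surjective ρ hρ
    exact IsLocalRing.eq_maximalIdeal hmax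
  let ε : A ⧸ p ≃+* κ := (Ideal.quotEquivOfEq hker.symm).trans (RingHom.quotientKerEquivOfSurjective hρ)
  have hε : ∀ a : A, ε (Ideal.Quotient.mk p a) = ρ a := fun a => rfl
  letI algκ : Algebra κ (integralClosure A L ⧸ P) :=
    ((algebraMap (A ⧸ p) (integralClosure A L ⧸ P)).comp (ε.symm : κ →+* A ⧸ p)).toAlgebra
  have hrank : Module.finrank (A ⧸ p) (integralClosure A L ⧸ P) =
      Module.finrank κ (integralClosure A L ⧸ P) := by
    apply Algebra.finrank_eq_of_equiv_equiv ε (RingEquiv.refl _)
    ext a
    change algebraMap (A ⧸ p) (integralClosure A L ⧸ P) (ε.symm (ε _)) = _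
    rw [RingEquiv.symm_apply_apply]
    rfl
  have hf' : ¬ n ∣ Module.finrank κ (integralClosure A L ⧸ P) := by
    rw [← hrank, ← Ideal.inertiaDeg'_algebraMap]
    exact hf
  have hfin : FiniteDimensional κ (integralClosure A L ⧸ P) := by
    apply Module.finite_of_finrank_pos
    apply Nat.pos_of_ne_zero
    intro h
    rw [h] at hf'
    exact hf' (dvd_zero _)
  obtain ⟨π, hπ⟩ := IsDiscreteValuationRing.exists_irreducible B
  obtain ⟨u, hu⟩ := unif_pow A p ϖ hϖp hϖ.ne_zero (integralClosure A L) hinj P B i hui hPi π hπ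
  refine ⟨⟨B, hB, integralClosure A L ⧸ P, inferInstance, algκ, hfin, ρ', hρ',
    i.comp (algebraMap A (integralClosure A L)), ?_, ?_, π, hπ, Ideal.ramificationIdx' p P, u, hu⟩,
    he, hf'⟩
  · intro a
    rw [RingHom.comp_apply, hi]
    rfl
  · intro a
    rw [RingHom.comp_apply, hρi]
    change _ = algebraMap (A ⧸ p) (integralClosure A L ⧸ P) (ε.symm (ρ a))
    rw [← hε, RingEquiv.symm_apply_apply]
    rfl

/-- the value of the binary form with the coefficients `c` -/
noncomputable def hval {R : Type*} [CommSemiring R] {d : ℕ} (c : Fin (d + 1) → R) (x t : R) : R :=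
  ∑ j : Fin (d + 1), c j * x ^ (j : ℕ) * t ^ (d - j)

/-- **the valuations of the values of binary forms** over a finite extension of a discretely valued
field whose degree is not divisible by `g` -/
theorem local_ord (k : Type) [Field k] [CharZero k] (A : ValuationSubring k)
    [IsDiscreteValuationRing A] (ϖ : A) (hϖ : Irreducible ϖ) (κ : Type) [Field κ] (ρ : A →+* κ)
    (hρ : Function.Surjective ρ) (g : ℕ) {ι : Type} (d : ι → ℕ)
    (c : (i : ι) → Fin (d i + 1) → A) (hlc : ∀ i, IsUnit (c i (Fin.last (d i))))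
    (hirr : ∀ i, Irreducible ((pol (c i)).map ρ))
    (L : Type) [Field L] [Algebra k L] [FiniteDimensional k L] (hl : ¬ g ∣ Module.finrank k L) :
    ∃ (B : ValuationSubring L) (_ : IsDiscreteValuationRing B) (π : B) (e : ℕ), Irreducible π ∧
      ¬ g ∣ e ∧ OrdIs π (algebraMap k L (ϖ : k)) (e : ℤ) ∧
      ∀ i, g ∣ d i → ∀ x t : L, (x ≠ 0 ∨ t ≠ 0) →
        ∃ j : ℤ, OrdIs π (hval (fun l => algebraMap k L (c i l : k)) x t) (g * j) := by
  obtain ⟨P, he, hf⟩ := exists_place_n k A ϖ hϖ κ ρ hρ L g hl
  obtain ⟨B, hB, κ', fld, alg, fin, ρ', sur, i, hi, hρi, π, hπ, e, u, hu⟩ := P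
  dsimp only at he hf
  have hinj : Function.Injective i := by
    intro x y hxy
    have h1 := congrArg (fun z : B => (z : L)) hxy
    simp only [hi] at h1
    exact Subtype.ext ((algebraMap k L).injective h1)
  have hc0 : ∀ j, c j (Fin.last (d j)) ≠ 0 := fun j h => by
    have := hlc j
    rw [h] at this
    exact not_isUnit_zero this
  have hdeg : ∀ j, (pol (c j)).natDegree = d j := fun j => pol_natDegree (c j) (hc0 j)
  have hlc' : ∀ j, IsUnit (pol (c j)).leadingCoeff := by
    intro j
    rw [pol_leadingCoeff (c j) (hc0 j)]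
    exact hlc j
  refine ⟨B, hB, π, e, hπ, he, ?_, ?_⟩
  · refine ⟨u, ?_⟩
    have h5 : algebraMap k L (ϖ : k) = ((i ϖ : B) : L) := (hi ϖ).symm
    rw [h5, hu, zpow_natCast]
    rfl
  intro j hgj x t hxt
  -- no roots modulo the maximal ideal
  have hroot : ∀ b : B, ((pol (c j)).map i).eval b ∉ IsLocalRing.maximalIdeal B := by
    intro b hb
    have hker : ρ' (((pol (c j)).map i).eval b) = 0 := by
      have hmax : (RingHom.ker ρ').IsMaximal := RingHom.ker_isMaximal_of_surjective ρ' sur
      rw [← IsLocalRing.eq_maximalIdeal hmax] at hb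
      exact hb
    have hgρ : ((pol (c j)).map i).map ρ' = ((pol (c j)).map ρ).map (algebraMap κ κ') := by
      rw [Polynomial.map_map, Polynomial.map_map]
      congr 1
      ext x
      exact hρi x
    have hr : aeval (ρ' b) ((pol (c j)).map ρ) = 0 := by
      rw [aeval_def, ← eval_map, ← hgρ, eval_map, eval₂_at_apply, hker]
    have hint : IsIntegral κ (ρ' b) := Algebra.IsIntegral.isIntegral _
    have h2 : Associated (minpoly κ (ρ' b)) ((pol (c j)).map ρ) :=
      (minpoly.irreducible hint).associated_of_dvd (hirr j) (minpoly.dvd κ _ hr)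
    have hρlc : ρ (pol (c j)).leadingCoeff ≠ 0 := ((hlc' j).map ρ).ne_zero
    have h3 : (minpoly κ (ρ' b)).natDegree = d j := by
      rw [natDegree_eq_of_degree_eq (degree_eq_degree_of_associated h2),
        natDegree_map_of_leadingCoeff_ne_zero _ hρlc, hdeg]
    have h4 := minpoly.degree_dvd hint
    rw [h3] at h4
    exact hf (hgj.trans h4)
  obtain ⟨q, hq⟩ := hgj
  have hcast : ((d j : ℕ) : ℤ) = g * q := by
    rw [hq]
    push_cast
    rfl
  by_cases ht : t = 0
  · have hx : x ≠ 0 := by
      rcases hxt with h | h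
      · exact h
      · exact absurd ht h
    obtain ⟨s, hs⟩ := OrdIs.exists (A := B) hπ hx
    have h4 : OrdIs π (algebraMap k L (c j (Fin.last (d j)) : k)) 0 := by
      rw [← hi]
      exact OrdIs.of_unit π _ ((hlc j).map i)
    have h5 := h4.mul hπ (hs.pow hπ (d j))
    refine ⟨q * s, ?_⟩
    have e1 : hval (fun l => algebraMap k L (c j l : k)) x t =
        algebraMap k L (c j (Fin.last (d j)) : k) * x ^ (d j) := by
      rw [ht]
      exact hom_eval_zero (fun l => algebraMap k L (c j l : k)) x
    rw [e1]
    have e : (g : ℤ) * (q * s) = 0 + (d j : ℕ) * s := by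
      rw [zero_add, hcast]
      ring
    rw [e]
    exact h5
  · obtain ⟨s, hs⟩ := OrdIs.exists (A := B) hπ ht
    obtain ⟨m, hm⟩ := eval_ord π hπ ((pol (c j)).map i) (by
      rw [leadingCoeff_map_of_injective hinj]
      exact (hlc' j).map i) g (by
      rw [natDegree_map_eq_of_injective hinj, hdeg, hq]
      exact dvd_mul_right _ _) hroot (x / t)
    have e2 : (((pol (c j)).map i).map (algebraMap B L)).eval (x / t) =
        (pol fun l => algebraMap k L (c j l : k)).eval (x / t) := by
      have e3 : (pol fun l => algebraMap k L (c j l : k)) =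
          (pol (c j)).map ((algebraMap B L).comp i) := by
        rw [pol_map]
        congr 1
        funext l
        exact (hi _).symm
      rw [e3, Polynomial.map_map]
    rw [e2] at hm
    refine ⟨q * s + m, ?_⟩
    have e1 : hval (fun l => algebraMap k L (c j l : k)) x t =
        t ^ (d j) * (pol fun l => algebraMap k L (c j l : k)).eval (x / t) :=
      hom_eval (fun l => algebraMap k L (c j l : k)) x t ht
    rw [e1]
    have e : (g : ℤ) * (q * s + m) = (d j : ℕ) * s + g * m := by
      rw [hcast]
      ring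
    rw [e]
    exact (hs.pow hπ (d j)).mul hπ hm

end Pool.Agent.Q296.BF
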