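import Pool.Agent.Q296.BF.Loc

/-! # Sums of elements with different valuations, and the hypersurfaces `∑ aⁱ F_i(x_i, t_i) = 0` -/

set_option autoImplicit false

namespace Pool.Agent.Q296.BF

open Polynomial NumberField IsDedekindDomain Pool.Agent.Q52.SecY Pool.Agent.TH377.Sup

section dvr

variable {A k : Type*} [CommRing A] [IsDomain A] [IsDiscreteValuationRing A] [Field k]
  [Algebra A k] [IsFractionRing A k]

/-- a sum of elements with pairwise different valuations is not zero -/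
lemma sum_ne_zero {ϖ : A} (hϖ : Irreducible ϖ) {ι : Type*} (s : Finset ι)
    (hs : s.Nonempty) (z : ι → k) (m : ι → ℤ) (hz : ∀ i ∈ s, OrdIs ϖ (z i) (m i))
    (hm : ∀ i ∈ s, ∀ j ∈ s, i ≠ j → m i ≠ m j) : ∑ i ∈ s, z i ≠ 0 := by
  classical
  obtain ⟨i₀, hi₀, hmin⟩ := Finset.exists_min_image s m hs
  have hϖk := uniz_ne (k := k) ϖ hϖ
  have hlt : ∀ i ∈ s.erase i₀, m i₀ + 1 ≤ m i := by
    intro i hi
    obtain ⟨h1, h2⟩ := Finset.mem_erase.1 hi
    have h3 := hmin i h2
    have h4 := hm i h2 i₀ hi₀ h1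
    omega
  have hb : ∀ i : ι, ∃ b : A, i ∈ s.erase i₀ →
      z i = algebraMap A k ϖ ^ (m i₀) * algebraMap A k (ϖ * b) := by
    intro i
    by_cases hi : i ∈ s.erase i₀
    · obtain ⟨u, hu⟩ := hz i (Finset.mem_of_mem_erase hi)
      obtain ⟨n, hn⟩ := Int.le.dest (hlt i hi)
      refine ⟨u * ϖ ^ n, fun _ => ?_⟩
      rw [hu, ← hn, map_mul, map_mul, map_pow, zpow_add₀ hϖk, zpow_add₀ hϖk, zpow_one,
        zpow_natCast]
      ring
    · exact ⟨0, fun h => absurd h hi⟩
  choose b hb using hb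
  intro h0
  rw [← Finset.add_sum_erase s z hi₀, Finset.sum_congr rfl (fun i hi => hb i hi),
    ← Finset.mul_sum, ← map_sum, ← Finset.mul_sum] at h0
  obtain ⟨u, hu⟩ := hz i₀ hi₀
  rw [hu, mul_comm (algebraMap A k u), ← mul_add, ← map_add] at h0
  rcases mul_eq_zero.1 h0 with h1 | h1
  · exact zpow_ne_zero _ hϖk h1
  · rw [map_eq_zero_iff _ (IsFractionRing.injective A k)] at h1
    have h2 : (u : A) = ϖ * (-∑ i ∈ s.erase i₀, b i) := by linear_combination h1
    exact hϖ.not_isUnit (isUnit_of_mul_isUnit_left (h2 ▸ u.isUnit))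

end dvr

variable {K : Type} [Field K] [NumberField K] (v : HeightOneSpectrum (𝓞 K))

/-- **the hypersurface** `∑ aⁱ F_i(x_i, t_i) = 0` has no nonzero solutions over extensions of the
completion of degree not divisible by `g` -/
theorem compl_hyper {r : ℕ} (d : Fin r → ℕ) (y : Idx d → 𝓞 K)
    (hy : (fun o => Ideal.Quotient.mk (v.asIdeal ^ 2) (y o)) ∈ GoodM v d) (g : ℕ)
    (hd : ∀ i, d i ≠ 0) (hg : ∀ i, g ∣ d i) (hg' : ∀ p : ℕ, p.Prime → p ∣ g → r ≤ p) (E : Type)
    [Field E] [Algebra (v.adicCompletion K) E] [FiniteDimensional (v.adicCompletion K) E]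
    (hl : ¬ g ∣ Module.finrank (v.adicCompletion K) E) (x t : Fin r → E)
    (hxt : ∃ i, x i ≠ 0 ∨ t i ≠ 0) :
    ∑ i : Fin r, (algebraMap (v.adicCompletion K) E (algebraMap K (v.adicCompletion K)
        (algebraMap (𝓞 K) K (y none)))) ^ (i : ℕ) *
      hval (fun l => algebraMap (v.adicCompletion K) E
          (algebraMap K (v.adicCompletion K) (algebraMap (𝓞 K) K (y (some ⟨i, l⟩)))))
            (x i) (t i) ≠ 0 := by
  classical
  obtain ⟨B, hB, π, e, hπ, he, ha, hF⟩ := compl_ord v d y hy g E hl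
  set α : E := algebraMap (v.adicCompletion K) E (algebraMap K (v.adicCompletion K)
        (algebraMap (𝓞 K) K (y none))) with hα
  set s : Finset (Fin r) := Finset.univ.filter fun i => x i ≠ 0 ∨ t i ≠ 0 with hs
  have hj : ∀ i : Fin r, ∃ j : ℤ, i ∈ s → OrdIs π (hval (fun l =>
      algebraMap (v.adicCompletion K) E (algebraMap K (v.adicCompletion K)
        (algebraMap (𝓞 K) K (y (some ⟨i, l⟩))))) (x i) (t i)) (g * j) := by
    intro i
    by_cases hi : i ∈ s
    · obtain ⟨j, hj⟩ := hF i (hg i) (x i) (t i) (Finset.mem_filter.1 hi).2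
      exact ⟨j, fun _ => hj⟩
    · exact ⟨0, fun h => absurd h hi⟩
  choose j hj using hj
  have hsum : ∑ i : Fin r, α ^ (i : ℕ) * hval (fun l => algebraMap (v.adicCompletion K) E
      (algebraMap K (v.adicCompletion K) (algebraMap (𝓞 K) K (y (some ⟨i, l⟩))))) (x i) (t i) =
      ∑ i ∈ s, α ^ (i : ℕ) * hval (fun l => algebraMap (v.adicCompletion K) E
      (algebraMap K (v.adicCompletion K) (algebraMap (𝓞 K) K (y (some ⟨i, l⟩))))) (x i) (t i) := by
    symm
    apply Finset.sum_subset (Finset.subset_univ _)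
    intro i _ hi
    have h1 : x i = 0 ∧ t i = 0 := by
      by_contra h
      apply hi
      rw [hs, Finset.mem_filter]
      refine ⟨Finset.mem_univ _, ?_⟩
      by_contra h2
      push Not at h2
      exact h h2
    rw [h1.1, h1.2]
    apply mul_eq_zero_of_right
    apply Finset.sum_eq_zero
    intro l _
    by_cases hl0 : (l : ℕ) = 0
    · have : d i - (l : ℕ) ≠ 0 := by
        have := hd i
        omega
      rw [zero_pow this, mul_zero]
    · rw [zero_pow hl0, mul_zero, zero_mul]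
  rw [hsum]
  refine sum_ne_zero hπ s ?_ _ (fun i => (i : ℕ) * (e : ℤ) + g * j i) ?_ ?_
  · obtain ⟨i, hi⟩ := hxt
    exact ⟨i, Finset.mem_filter.2 ⟨Finset.mem_univ _, hi⟩⟩
  · intro i hi
    exact (ha.pow hπ (i : ℕ)).mul hπ (hj i hi)
  · intro i hi i' hi' hne h
    have h1 : ((g : ℕ) : ℤ) ∣ ((i : ℕ) - (i' : ℕ) : ℤ) * e := ⟨j i' - j i, by
      linear_combination h⟩
    have h2 : IsCoprime ((g : ℕ) : ℤ) ((i : ℕ) - (i' : ℕ) : ℤ) := by
      rw [Int.isCoprime_iff_gcd_eq_one]
      by_contra hcon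
      obtain ⟨p, hp, hpd⟩ := Nat.exists_prime_and_dvd hcon
      have h3 : (p : ℤ) ∣ (g : ℤ) := (Int.natCast_dvd_natCast.2 hpd).trans (Int.gcd_dvd_left _ _)
      have h4 : (p : ℤ) ∣ ((i : ℕ) - (i' : ℕ) : ℤ) :=
        (Int.natCast_dvd_natCast.2 hpd).trans (Int.gcd_dvd_right _ _)
      have h5 := hg' p hp (Int.natCast_dvd_natCast.1 h3)
      have h6 := i.isLt
      have h7 := i'.isLt
      have h8 : ((i : ℕ) : ℤ) ≠ (i' : ℕ) := by
        intro h
        apply hne
        apply Fin.ext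
        exact_mod_cast h
      have h9 : |((i : ℕ) - (i' : ℕ) : ℤ)| < p := by
        rw [abs_lt]
        constructor <;> omega
      have h10 := Int.eq_zero_of_abs_lt_dvd h4 h9
      omega
    have h3 := h2.dvd_of_dvd_mul_left h1
    exact he (Int.natCast_dvd_natCast.1 h3)

end Pool.Agent.Q296.BF
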