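import Mathlib.RingTheory.Unramified.Field
import Mathlib.RingTheory.Artinian.Module
import Mathlib.FieldTheory.Separable
import Mathlib.LinearAlgebra.Dimension.Constructions
import Mathlib.Algebra.CharP.Algebra

/-! # Finite extensions under base change -/

set_option autoImplicit false

namespace Pool.Agent.Q296.BF

open TensorProduct

/-- if `n` does not divide `[E : F]`, and `F'` is an extension of `F`, then some compositum `E'` of
`E` and `F'` has degree over `F'` not divisible by `n` -/
theorem exists_above (F F' E : Type) [Field F] [CharZero F] [Field F'] [Algebra F F'] [Field E]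
    [Algebra F E] [FiniteDimensional F E] (n : ℕ) (h : ¬ n ∣ Module.finrank F E) :
    ∃ (E' : Type) (_ : Field E') (_ : Algebra F' E') (_ : FiniteDimensional F' E')
      (ψ : E →+* E'), (∀ a : F, ψ (algebraMap F E a) = algebraMap F' E' (algebraMap F F' a)) ∧
      ¬ n ∣ Module.finrank F' E' := by
  classical
  have hsep : Algebra.IsSeparable F E := inferInstance
  have hun : Algebra.FormallyUnramified F E :=
    (Algebra.FormallyUnramified.iff_isSeparable F E).2 hsep
  let R := F' ⊗[F] E
  have hfin : Module.Finite F' R := inferInstance
  have hart : IsArtinianRing R := IsArtinianRing.of_finite F' R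
  have hred : IsReduced R := Algebra.FormallyUnramified.isReduced_of_field F' R
  have hfinI : Finite (MaximalSpectrum R) := inferInstance
  have : Fintype (MaximalSpectrum R) := Fintype.ofFinite _
  have hrank : Module.finrank F' R = Module.finrank F E := Module.finrank_baseChange
  have hquot : ∀ I : MaximalSpectrum R, Module.Finite F' (R ⧸ I.asIdeal) := fun I =>
    inferInstance
  have hsum : Module.finrank F' R = ∑ I : MaximalSpectrum R, Module.finrank F' (R ⧸ I.asIdeal) := by
    rw [← Module.finrank_pi_fintype]
    exact LinearEquiv.finrank_eq ((IsArtinianRing.equivPi R).toLinearEquiv.restrictScalars F')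
  by_contra hcon
  push Not at hcon
  apply h
  rw [← hrank, hsum]
  apply Finset.dvd_sum
  intro I _
  have hmax : I.asIdeal.IsMaximal := I.isMaximal
  let _ : Field (R ⧸ I.asIdeal) := Ideal.Quotient.field I.asIdeal
  refine hcon (R ⧸ I.asIdeal) inferInstance inferInstance (hquot I)
    ((Ideal.Quotient.mk I.asIdeal).comp
      (Algebra.TensorProduct.includeRight : E →ₐ[F] F' ⊗[F] E).toRingHom) ?_
  intro a
  have h1 : (Algebra.TensorProduct.includeRight : E →ₐ[F] F' ⊗[F] E) (algebraMap F E a) =
      algebraMap F' R (algebraMap F F' a) := by
    rw [AlgHom.commutes]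
    rfl
  change Ideal.Quotient.mk I.asIdeal ((Algebra.TensorProduct.includeRight : E →ₐ[F] F' ⊗[F] E)
    (algebraMap F E a)) = _
  rw [h1]
  rfl

end Pool.Agent.Q296.BF
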